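import Pool.Agent.helper7.EP.SpecL
import Pool.Agent.helper86.PrimesDyadic

set_option autoImplicit false

open Finset
open scoped Real

noncomputable section

namespace Pool.Agent.EP

theorem LOW_r0 (a : ℕ) (ha : 3 ≤ a) : (r0 a + 2 ^ a) % 24 = 3 := by
  obtain ⟨b, rfl⟩ : ∃ b, a = 3 + b := ⟨a - 3, by omega⟩
  have h : ∀ b : ℕ, (b % 2 = 0 → 2 ^ (3 + b) % 24 = 8) ∧ (b % 2 = 1 → 2 ^ (3 + b) % 24 = 16) := by
    intro b
    induction b with
    | zero => exact ⟨fun _ => by norm_num, fun h => by omega⟩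
    | succ b ih =>
      have e : 2 ^ (3 + (b + 1)) = 2 ^ (3 + b) * 2 := by rw [← pow_succ]; rfl
      rw [e]
      constructor
      · intro h
        have := ih.2 (by omega)
        omega
      · intro h
        have := ih.1 (by omega)
        omega
  unfold r0
  rcases Nat.mod_two_eq_zero_or_one b with h0 | h1
  · have := (h b).1 h0
    rw [if_pos (by omega)]
    omega
  · have := (h b).2 h1
    rw [if_neg (by omega)]
    omega

theorem LOW_sq (c : ℕ) (hc : c < 24) (h : Nat.Coprime c 6) : c * c % 24 = 1 := by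
  interval_cases c <;> first | rfl | (exfalso; revert h; decide)

theorem LOW_nu (a c p₁ p₂ : ℕ) (ha : 3 ≤ a) (hc : c < 24) (h : Nat.Coprime c 6)
    (h1 : p₁ % 24 = c) (h2 : p₂ % 24 = c) :
    24 * nu a p₁ p₂ + 3 = r0 a * p₁ * p₂ + 2 ^ a := by
  have hpp : p₁ * p₂ % 24 = 1 := by
    rw [Nat.mul_mod, h1, h2]; exact LOW_sq c hc h
  have hr : (r0 a * p₁ * p₂ + 2 ^ a) % 24 = 3 := by
    have e1 : (r0 a * p₁ * p₂) % 24 = r0 a % 24 := by
      rw [mul_assoc, Nat.mul_mod, hpp]; simp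
    have := LOW_r0 a ha
    rw [Nat.add_mod, e1, ← Nat.add_mod]; exact this
  unfold nu
  have := Nat.div_add_mod (r0 a * p₁ * p₂ + 2 ^ a) 24
  omega

theorem LOW_cls (y : ℕ) (hy : 4 ≤ y) :
    ∃ c, c < 24 ∧ Nat.Coprime c 6 ∧ helper86.primesIn y ≤ 8 * #(Wd c y y) := by
  classical
  set C : Finset ℕ := {c ∈ range 24 | Nat.Coprime c 6} with hC
  have hCc : #C = 8 := by rw [hC]; decide
  have hCn : C.Nonempty := by rw [← Finset.card_pos, hCc]; norm_num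
  obtain ⟨c, hc, hmax⟩ := Finset.exists_max_image C (fun c => #(Wd c y y)) hCn
  rw [hC, mem_filter, mem_range] at hc
  refine ⟨c, hc.1, hc.2, ?_⟩
  have h6 : ∀ p : ℕ, p.Prime → 4 ≤ p → Nat.Coprime (p % 24) 6 := by
    intro p hp h4
    have h2 : p % 2 ≠ 0 := by
      intro h
      have := (Nat.prime_dvd_prime_iff_eq Nat.prime_two hp).1 (Nat.dvd_of_mod_eq_zero h)
      omega
    have h3 : p % 3 ≠ 0 := by
      intro h
      have := (Nat.prime_dvd_prime_iff_eq Nat.prime_three hp).1 (Nat.dvd_of_mod_eq_zero h)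
      omega
    have hlt : p % 24 < 24 := Nat.mod_lt _ (by norm_num)
    have h2' : (p % 24) % 2 ≠ 0 := by omega
    have h3' : (p % 24) % 3 ≠ 0 := by omega
    revert h2' h3' hlt
    generalize p % 24 = r
    intro hlt h2' h3'
    interval_cases r <;> first | decide | (exfalso; omega)
  have hmaps : ∀ p ∈ (Ioc y (2 * y)).filter Nat.Prime, p % 24 ∈ C := by
    intro p hp
    rw [mem_filter, mem_Ioc] at hp
    rw [hC, mem_filter, mem_range]
    exact ⟨Nat.mod_lt _ (by norm_num), h6 p hp.2 (by omega)⟩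
  have hcard := Finset.card_le_mul_card_image_of_maps_to hmaps (#(Wd c y y)) (by
    intro b hb
    refine le_trans (Finset.card_le_card ?_) (hmax b hb)
    intro p hp
    rw [mem_filter, mem_filter, mem_Ioc] at hp
    unfold Wd
    rw [mem_filter, mem_Ico]
    obtain ⟨⟨⟨h1, h2⟩, h3⟩, h4⟩ := hp
    refine ⟨⟨by omega, ?_⟩, h3, h4⟩
    rcases lt_or_eq_of_le h2 with h | h
    · omega
    · exfalso
      have hd : 2 ∣ p := ⟨y, h⟩
      have := (Nat.prime_dvd_prime_iff_eq Nat.prime_two h3).1 hd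
      omega)
  rw [hCc] at hcard
  unfold helper86.primesIn
  omega

/-- the fibres of `nu` -/
theorem LOW_img (a c e y t : ℕ) (ha : 3 ≤ a) (hc : c < 24) (h : Nat.Coprime c 6) :
    #(Prs a c e y t) ≤ 2 * #((Prs a c e y t).image (fun p => nu a p.1 p.2)) := by
  classical
  refine Finset.card_le_mul_card_image _ 2 ?_
  intro n hn
  rw [mem_image] at hn
  obtain ⟨⟨q₁, q₂⟩, hq, hqn⟩ := hn
  have hsub : {x ∈ Prs a c e y t | nu a x.1 x.2 = n} ⊆ {(q₁, q₂), (q₂, q₁)} := by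
    intro x hx
    obtain ⟨x₁, x₂⟩ := x
    rw [mem_filter] at hx
    obtain ⟨hx1, hx2⟩ := hx
    unfold Prs Wd at hx1 hq
    simp only [mem_filter, mem_product, mem_Ico] at hx1 hq
    obtain ⟨⟨⟨_, hp1, hm1⟩, ⟨_, hp2, hm2⟩⟩, _⟩ := hx1
    obtain ⟨⟨⟨_, hr1, hn1⟩, ⟨_, hr2, hn2⟩⟩, _⟩ := hq
    have e1 := LOW_nu a c x₁ x₂ ha hc h hm1 hm2
    have e2 := LOW_nu a c q₁ q₂ ha hc h hn1 hn2
    simp only at hx2 hqn
    rw [hx2] at e1
    rw [hqn] at e2
    have e3 : r0 a * x₁ * x₂ = r0 a * q₁ * q₂ := by omega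
    have hr0 : 0 < r0 a := by unfold r0; split_ifs <;> norm_num
    have e4 : x₁ * x₂ = q₁ * q₂ := by
      rw [mul_assoc, mul_assoc] at e3
      exact Nat.eq_of_mul_eq_mul_left hr0 e3
    have hd : x₁ ∣ q₁ * q₂ := ⟨x₂, e4.symm⟩
    simp only [mem_insert, mem_singleton, Prod.mk.injEq]
    rcases (Nat.Prime.dvd_mul hp1).1 hd with h1 | h1
    · have := (Nat.prime_dvd_prime_iff_eq hp1 hr1).1 h1
      subst this
      left
      exact ⟨rfl, Nat.eq_of_mul_eq_mul_left hp1.pos e4⟩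
    · have := (Nat.prime_dvd_prime_iff_eq hp1 hr2).1 h1
      subst this
      right
      refine ⟨rfl, ?_⟩
      rw [mul_comm q₁ x₁] at e4
      exact Nat.eq_of_mul_eq_mul_left hp1.pos e4
  refine le_trans (Finset.card_le_card hsub) ?_
  exact Finset.card_le_two

theorem LOW_sub (a c e y t X : ℕ) (ha : 3 ≤ a) (hc : c < 24) (h : Nat.Coprime c 6)
    (hy1 : 2 * 2 ^ a ≤ y) (hy2 : 4 * (y * y) ≤ X) (ht : 16 * t ≤ y) :
    (((Prs a c e y t).image (fun p => nu a p.1 p.2) : Finset ℕ) : Set ℕ) ⊆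
      {n : ℕ | n ≤ X ∧ Sp a n ∧ #(rs (2 ^ a) n) % 2 = e} := by
  intro n hn
  rw [Finset.mem_coe, mem_image] at hn
  obtain ⟨⟨q₁, q₂⟩, hq, hqn⟩ := hn
  unfold Prs Wd at hq
  simp only [mem_filter, mem_product, mem_Ico] at hq hqn
  obtain ⟨⟨⟨hr1, hr1', hn1⟩, ⟨hr2, hr2', hn2⟩⟩, he⟩ := hq
  have e2 := LOW_nu a c q₁ q₂ ha hc h hn1 hn2
  rw [hqn] at e2 he
  have hpos : 0 < 2 ^ a := by positivity
  refine ⟨?_, ⟨q₁, q₂, hr1', hr2', by omega, by omega, e2⟩, he⟩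
  have b1 : 16 * q₁ ≤ 33 * y := by omega
  have b2 : 16 * q₂ ≤ 33 * y := by omega
  have b3 : (16 * q₁) * (16 * q₂) ≤ (33 * y) * (33 * y) := Nat.mul_le_mul b1 b2
  have b4 : r0 a ≤ 19 := by unfold r0; split_ifs <;> norm_num
  have b5 : r0 a * q₁ * q₂ ≤ 19 * (q₁ * q₂) := by
    rw [mul_assoc]; exact Nat.mul_le_mul_right _ b4
  have b6 : y ≤ y * y := Nat.le_mul_self y
  have b7 : (16 * q₁) * (16 * q₂) = 256 * (q₁ * q₂) := by ring
  have b8 : (33 * y) * (33 * y) = 1089 * (y * y) := by ring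
  rw [b7, b8] at b3
  omega

theorem LOW_h1 (E J Y v n t : ℝ) (hE : 0 < E) (hJ : 1 ≤ J) (hY : 0 < Y) (hv : 1 ≤ v)
    (hn : Y / (8 * v) ≤ n) (ht0 : 0 ≤ t) (ht : t * E ≤ 2 * Y)
    (hA : 16384 * J ^ 5 * v ^ 2 ≤ E * J) :
    16 * (4 * (E * J)) ^ 4 * t ^ 2 ≤ (4 * E) ^ 3 * n ^ 2 := by
  have hJ0 : 0 < J := by linarith
  have hv0 : 0 < v := by linarith
  have hA' : 16384 * J ^ 4 * v ^ 2 ≤ E := by
    have : (16384 * J ^ 4 * v ^ 2) * J ≤ E * J := by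
      calc (16384 * J ^ 4 * v ^ 2) * J = 16384 * J ^ 5 * v ^ 2 := by ring
        _ ≤ E * J := hA
    exact le_of_mul_le_mul_right this hJ0
  have hn2 : (Y / (8 * v)) ^ 2 ≤ n ^ 2 := by
    apply pow_le_pow_left₀ (by positivity) hn
  have ht2 : (t * E) ^ 2 ≤ (2 * Y) ^ 2 := pow_le_pow_left₀ (by positivity) ht 2
  have hY2 : Y ^ 2 ≤ 64 * v ^ 2 * n ^ 2 := by
    have : (Y / (8 * v)) ^ 2 = Y ^ 2 / (64 * v ^ 2) := by
      rw [div_pow]; ring
    rw [this, div_le_iff₀ (by positivity)] at hn2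
    linarith
  have hE2 : 0 < E ^ 2 := by positivity
  refine le_of_mul_le_mul_right ?_ (show 0 < E ^ 2 * v ^ 2 by positivity)
  calc 16 * (4 * (E * J)) ^ 4 * t ^ 2 * (E ^ 2 * v ^ 2)
      = 4096 * E ^ 4 * J ^ 4 * v ^ 2 * (t * E) ^ 2 := by ring
    _ ≤ 4096 * E ^ 4 * J ^ 4 * v ^ 2 * (2 * Y) ^ 2 := by
        apply mul_le_mul_of_nonneg_left ht2 (by positivity)
    _ = E ^ 4 * (16384 * J ^ 4 * v ^ 2) * Y ^ 2 := by ring
    _ ≤ E ^ 4 * E * Y ^ 2 := by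
        apply mul_le_mul_of_nonneg_right _ (by positivity)
        apply mul_le_mul_of_nonneg_left hA' (by positivity)
    _ ≤ E ^ 4 * E * (64 * v ^ 2 * n ^ 2) := by
        apply mul_le_mul_of_nonneg_left hY2 (by positivity)
    _ = (4 * E) ^ 3 * n ^ 2 * (E ^ 2 * v ^ 2) := by ring

theorem LOW_core (hTOT : TOT_stmt) (X a e y : ℕ) (u v : ℝ) (hy : y = Nat.sqrt X / 2)
    (hX : 16 * 4 ^ a ≤ X) (he : e < 2) (hv : 1 ≤ v) (hvu : v ^ 2 ≤ u) (hu : 10 ^ 6 ≤ u)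
    (hua : u ^ 8 ≤ 2 ^ a) (hp : (y : ℝ) / v ≤ helper86.primesIn y) :
    (X : ℝ) / u ^ 8 ≤
      (Set.ncard {n : ℕ | n ≤ X ∧ Sp a n ∧ #(rs (2 ^ a) n) % 2 = e} : ℝ) := by
  classical
  have hv0 : 0 < v := by linarith
  have hu0 : 0 < u := by linarith
  -- y
  have hy1 : 2 * 2 ^ a ≤ y := by
    have h1 : 4 * 2 ^ a ≤ Nat.sqrt X := by
      rw [Nat.le_sqrt]
      calc 4 * 2 ^ a * (4 * 2 ^ a) = 16 * (2 ^ a * 2 ^ a) := by ring
        _ = 16 * 4 ^ a := by rw [← mul_pow]; norm_num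
        _ ≤ X := hX
    omega
  have hy2 : 4 * (y * y) ≤ X := by
    have h1 : 2 * y ≤ Nat.sqrt X := by omega
    calc 4 * (y * y) = (2 * y) * (2 * y) := by ring
      _ ≤ Nat.sqrt X * Nat.sqrt X := Nat.mul_le_mul h1 h1
      _ ≤ X := Nat.sqrt_le X
  have hpa : 0 < 2 ^ a := by positivity
  have hy0 : 1 ≤ y := by omega
  have hy3 : X ≤ 16 * (y * y) := by
    have h1 : Nat.sqrt X + 1 ≤ 4 * y := by omega
    calc X ≤ (Nat.sqrt X + 1) * (Nat.sqrt X + 1) := (Nat.lt_succ_sqrt X).le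
      _ ≤ (4 * y) * (4 * y) := Nat.mul_le_mul h1 h1
      _ = 16 * (y * y) := by ring
  -- j
  obtain ⟨n, hn1, hn2⟩ := exists_nat_pow_near (x := 2880 * v) (y := (2 : ℝ)) (by linarith)
    (by norm_num)
  obtain ⟨j, rfl⟩ : ∃ j, j = n + 1 := ⟨n + 1, rfl⟩
  set j := n + 1 with hj
  set J : ℝ := (2 : ℝ) ^ j with hJ
  have hJ1 : 2880 * v ≤ J := hn2.le
  have hJ2 : J ≤ 5760 * v := by
    rw [hJ, hj, pow_succ]; linarith
  have hJ0 : 1 ≤ J := by linarith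
  have hA : 16384 * J ^ 5 * v ^ 2 ≤ 2 ^ a := by
    have h1 : J ^ 5 ≤ (5760 * v) ^ 5 := pow_le_pow_left₀ (by linarith) hJ2 5
    have h2 : v ^ 7 ≤ v ^ 8 := pow_le_pow_right₀ hv (by norm_num)
    have h3 : v ^ 8 ≤ u ^ 4 := by
      calc v ^ 8 = (v ^ 2) ^ 4 := by ring
        _ ≤ u ^ 4 := pow_le_pow_left₀ (by positivity) hvu 4
    have h4 : ((10 : ℝ) ^ 6) ^ 4 ≤ u ^ 4 := pow_le_pow_left₀ (by norm_num) hu 4
    calc 16384 * J ^ 5 * v ^ 2 ≤ 16384 * (5760 * v) ^ 5 * v ^ 2 := by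
          apply mul_le_mul_of_nonneg_right _ (by positivity)
          exact mul_le_mul_of_nonneg_left h1 (by norm_num)
      _ = (16384 * 5760 ^ 5) * v ^ 7 := by ring
      _ ≤ (16384 * 5760 ^ 5) * v ^ 8 := mul_le_mul_of_nonneg_left h2 (by norm_num)
      _ ≤ (16384 * 5760 ^ 5) * u ^ 4 := mul_le_mul_of_nonneg_left h3 (by norm_num)
      _ ≤ ((10 : ℝ) ^ 6) ^ 4 * u ^ 4 := by
          apply mul_le_mul_of_nonneg_right _ (by positivity)
          norm_num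
      _ ≤ u ^ 4 * u ^ 4 := mul_le_mul_of_nonneg_right h4 (by positivity)
      _ = u ^ 8 := by ring
      _ ≤ 2 ^ a := hua
  have hja : j ≤ a := by
    have h1 : J ≤ (2 : ℝ) ^ a := by
      refine le_trans ?_ hA
      have h2 : (1 : ℝ) ≤ J ^ 4 := one_le_pow₀ hJ0
      have h3 : (1 : ℝ) ≤ v ^ 2 := one_le_pow₀ hv
      calc J = 1 * J * 1 := by ring
        _ ≤ (16384 * J ^ 4) * J * v ^ 2 := by
          apply mul_le_mul _ h3 (by norm_num) (by positivity)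
          apply mul_le_mul_of_nonneg_right _ (by positivity)
          linarith
        _ = 16384 * J ^ 5 * v ^ 2 := by ring
    exact (pow_le_pow_iff_right₀ (by norm_num : (1 : ℝ) < 2)).1 h1
  have hj12 : 12 ≤ j := by
    by_contra hlt
    have h1 : j ≤ 11 := by omega
    have h2 : J ≤ (2 : ℝ) ^ 11 := pow_le_pow_right₀ (by norm_num) h1
    norm_num at h2
    linarith
  -- ell
  have hell : 2 ^ (a - j) * 2 ^ j = 2 ^ a := by rw [← pow_add]; congr 1; omega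
  have hell8 : 16 * 2 ^ (a - j) ≤ y := by
    have h1 : 8 ≤ 2 ^ j := by
      calc 8 = 2 ^ 3 := by norm_num
        _ ≤ 2 ^ j := Nat.pow_le_pow_right (by norm_num) (by omega)
    have h2 : 2 ^ (a - j) * 8 ≤ 2 ^ (a - j) * 2 ^ j := Nat.mul_le_mul_left _ h1
    omega
  have hellR : ((2 : ℝ) ^ (a - j)) * J = 2 ^ a := by
    rw [hJ, ← pow_add]; congr 1; omega
  set E : ℝ := (2 : ℝ) ^ (a - j) with hE
  have hE0 : 0 < E := by positivity
  -- class
  obtain ⟨c, hc1, hc2, hc3⟩ := LOW_cls y (by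
    have : 16 ≤ 16 * 2 ^ (a - j) := by
      have : 0 < 2 ^ (a - j) := by positivity
      omega
    omega)
  have hY0 : (0 : ℝ) < y := by exact_mod_cast hy0
  set N₀ : ℕ := ⌈(y : ℝ) / (8 * v)⌉₊ with hN₀
  have hN1 : (y : ℝ) / (8 * v) ≤ N₀ := Nat.le_ceil _
  have hN2 : N₀ ≤ #(Wd c y y) := by
    rw [hN₀, Nat.ceil_le]
    have h1 : ((helper86.primesIn y : ℕ) : ℝ) ≤ 8 * (#(Wd c y y) : ℝ) := by exact_mod_cast hc3
    have h2 : (y : ℝ) / (8 * v) = (y / v) / 8 := by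
      rw [div_div, mul_comm v 8]
    rw [h2]
    linarith
  -- T
  set T : ℕ := y / 2 ^ (a - j) + 1 with hT
  have hTE : T * 2 ^ (a - j) ≤ 2 * y := by
    rw [hT, add_mul, one_mul]
    have := Nat.div_mul_le_self y (2 ^ (a - j))
    omega
  have hTER : (T : ℝ) * E ≤ 2 * (y : ℝ) := by
    have : ((T * 2 ^ (a - j) : ℕ) : ℝ) ≤ ((2 * y : ℕ) : ℝ) := by exact_mod_cast hTE
    push_cast at this
    exact this
  have H1 : 16 * (2 ^ (a + 2)) ^ 4 * (y / 2 ^ (a - j) + 1) ^ 2 ≤ (2 ^ (a + 2 - j)) ^ 3 * N₀ ^ 2 := by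
    have h1 := LOW_h1 E J y v N₀ T hE0 hJ0 hY0 hv hN1 (by positivity) hTER
      (by rw [hellR]; exact hA)
    rw [hellR] at h1
    have e1 : (2 : ℝ) ^ (a + 2) = 4 * 2 ^ a := by rw [pow_add]; ring
    have e2 : (2 : ℝ) ^ (a + 2 - j) = 4 * E := by
      have : a + 2 - j = (a - j) + 2 := by omega
      rw [this, pow_add, hE]; ring
    have h2 : (16 * (2 ^ (a + 2)) ^ 4 * (T : ℝ) ^ 2) ≤ (2 ^ (a + 2 - j)) ^ 3 * (N₀ : ℝ) ^ 2 := by
      rw [e1, e2]; exact h1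
    rw [← hT]
    exact_mod_cast h2
  have H2 : 120 * 2 ^ (a - j) * ((y / 2 ^ (a - j) + 1) / 2 ^ j + 1) ≤ N₀ := by
    rw [← hT]
    have h1 : (((T / 2 ^ j : ℕ)) : ℝ) ≤ (T : ℝ) / J := by
      have := @Nat.cast_div_le ℝ _ _ _ T (2 ^ j)
      refine le_trans this ?_
      rw [hJ]; push_cast; exact le_refl _
    have h2 : (120 * E * (((T / 2 ^ j : ℕ) : ℝ) + 1)) ≤ N₀ := by
      refine le_trans ?_ hN1
      have hJ0' : 0 < J := by linarith
      have h3 : E * ((T / 2 ^ j : ℕ) : ℝ) ≤ 2 * y / J := by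
        calc E * ((T / 2 ^ j : ℕ) : ℝ) ≤ E * (T / J) := mul_le_mul_of_nonneg_left h1 hE0.le
          _ = (T * E) / J := by ring
          _ ≤ 2 * y / J := by
            apply div_le_div_of_nonneg_right hTER hJ0'.le
      have h4 : E ≤ y / J := by
        rw [le_div_iff₀ hJ0', hellR]
        have : ((2 * 2 ^ a : ℕ) : ℝ) ≤ y := by exact_mod_cast hy1
        push_cast at this
        have h5 : (0 : ℝ) < 2 ^ a := by positivity
        linarith
      have h6 : y / J ≤ y / (2880 * v) := by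
        apply div_le_div_of_nonneg_left hY0.le (by positivity) hJ1
      have h7 : (y : ℝ) / (2880 * v) = (y / (8 * v)) / 360 := by
        rw [div_div]; congr 1; ring
      have h8 : 2 * (y : ℝ) / J = 2 * (y / J) := by ring
      calc 120 * E * (((T / 2 ^ j : ℕ) : ℝ) + 1)
          = 120 * (E * ((T / 2 ^ j : ℕ) : ℝ)) + 120 * E := by ring
        _ ≤ 120 * (2 * (y / J)) + 120 * (y / J) := by
          rw [h8] at h3
          linarith
        _ = 360 * (y / J) := by ring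
        _ ≤ y / (8 * v) := by
          rw [h7] at h6
          linarith
    have h9 : ((120 * 2 ^ (a - j) * (T / 2 ^ j + 1) : ℕ) : ℝ) ≤ N₀ := by
      push_cast
      exact h2
    exact_mod_cast h9
  have hmain := hTOT a j c e y N₀ (by omega) (by omega) hja (by omega) hc1 hc2 he hN2 H1 H2
  set P := #(Prs a c e y (2 ^ (a - j))) with hP
  have himg := LOW_img a c e y (2 ^ (a - j)) (by omega) hc1 hc2
  have hsub := LOW_sub a c e y (2 ^ (a - j)) X (by omega) hc1 hc2 hy1 hy2 hell8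
  have hfin : {n : ℕ | n ≤ X ∧ Sp a n ∧ #(rs (2 ^ a) n) % 2 = e}.Finite :=
    (Set.finite_Iic X).subset fun n hn => hn.1
  have hnc := Set.ncard_le_ncard hsub hfin
  rw [Set.ncard_coe_finset] at hnc
  rw [← hP] at himg
  have hP2 : (P : ℝ) ≤ 2 *
      (Set.ncard {n : ℕ | n ≤ X ∧ Sp a n ∧ #(rs (2 ^ a) n) % 2 = e} : ℝ) := by
    have : P ≤ 2 * Set.ncard {n : ℕ | n ≤ X ∧ Sp a n ∧ #(rs (2 ^ a) n) % 2 = e} := by omega
    exact_mod_cast this
  have hmainR : (N₀ : ℝ) ^ 4 ≤ 256 * J * (y : ℝ) ^ 2 * P := by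
    have : ((N₀ ^ 4 : ℕ) : ℝ) ≤ ((256 * 2 ^ j * y ^ 2 * P : ℕ) : ℝ) := by exact_mod_cast hmain
    push_cast at this
    exact this
  have hN4 : ((y : ℝ) / (8 * v)) ^ 4 ≤ (N₀ : ℝ) ^ 4 := pow_le_pow_left₀ (by positivity) hN1 4
  have hfinal : (y : ℝ) ^ 2 ≤ 4096 * 256 * 5760 * v ^ 5 * P := by
    have h1 : ((y : ℝ) / (8 * v)) ^ 4 = (y : ℝ) ^ 4 / (4096 * v ^ 4) := by
      rw [div_pow]; ring
    rw [h1] at hN4
    have h2 : (y : ℝ) ^ 4 / (4096 * v ^ 4) ≤ 256 * (5760 * v) * (y : ℝ) ^ 2 * P := by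
      refine le_trans hN4 (le_trans hmainR ?_)
      apply mul_le_mul_of_nonneg_right _ (by positivity)
      apply mul_le_mul_of_nonneg_right _ (by positivity)
      exact mul_le_mul_of_nonneg_left hJ2 (by norm_num)
    rw [div_le_iff₀ (by positivity)] at h2
    refine le_of_mul_le_mul_right ?_ (show 0 < (y : ℝ) ^ 2 by positivity)
    calc (y : ℝ) ^ 2 * (y : ℝ) ^ 2 = (y : ℝ) ^ 4 := by ring
      _ ≤ 256 * (5760 * v) * (y : ℝ) ^ 2 * P * (4096 * v ^ 4) := h2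
      _ = 4096 * 256 * 5760 * v ^ 5 * P * (y : ℝ) ^ 2 := by ring
  have hXy : (X : ℝ) ≤ 16 * (y : ℝ) ^ 2 := by
    have : ((X : ℕ) : ℝ) ≤ ((16 * (y * y) : ℕ) : ℝ) := by exact_mod_cast hy3
    push_cast at this
    calc (X : ℝ) ≤ 16 * ((y : ℝ) * y) := this
      _ = 16 * (y : ℝ) ^ 2 := by ring
  have hv5 : v ^ 5 ≤ u ^ 3 := by
    calc v ^ 5 ≤ v ^ 6 := pow_le_pow_right₀ hv (by norm_num)
      _ = (v ^ 2) ^ 3 := by ring
      _ ≤ u ^ 3 := pow_le_pow_left₀ (by positivity) hvu 3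
  rw [div_le_iff₀ (by positivity)]
  have hK : ((10 : ℝ) ^ 6) ^ 5 ≤ u ^ 5 := pow_le_pow_left₀ (by norm_num) hu 5
  set Q : ℝ := (Set.ncard {n : ℕ | n ≤ X ∧ Sp a n ∧ #(rs (2 ^ a) n) % 2 = e} : ℝ) with hQ
  have hQ0 : 0 ≤ Q := by rw [hQ]; positivity
  calc (X : ℝ) ≤ 16 * (y : ℝ) ^ 2 := hXy
    _ ≤ 16 * (4096 * 256 * 5760 * v ^ 5 * P) := mul_le_mul_of_nonneg_left hfinal (by norm_num)
    _ ≤ 16 * (4096 * 256 * 5760 * u ^ 3 * (2 * Q)) := by
        apply mul_le_mul_of_nonneg_left _ (by norm_num)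
        apply mul_le_mul _ hP2 (by positivity) (by positivity)
        exact mul_le_mul_of_nonneg_left hv5 (by norm_num)
    _ = (32 * 4096 * 256 * 5760) * (u ^ 3 * Q) := by ring
    _ ≤ u ^ 5 * (u ^ 3 * Q) := by
        apply mul_le_mul_of_nonneg_right _ (by positivity)
        refine le_trans ?_ hK
        norm_num
    _ = Q * u ^ 8 := by ring

theorem LOW (hTOT : TOT_stmt) : LOW_stmt := by
  intro ε hε
  obtain ⟨ε', hε', hε0, hε1, hεle⟩ : ∃ ε' : ℝ, ε' = min ε (1 / 10) ∧ 0 < ε' ∧ ε' ≤ 1 / 10 ∧ ε' ≤ ε :=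
    ⟨_, rfl, lt_min hε (by norm_num), min_le_right _ _, min_le_left _ _⟩
  obtain ⟨δ, hδ⟩ : ∃ δ : ℝ, δ = ε' / 8 := ⟨_, rfl⟩
  have hδ0 : 0 < δ := by rw [hδ]; linarith
  have hδ1 : δ < 1 := by rw [hδ]; linarith
  obtain ⟨N1, hN1⟩ := Filter.eventually_atTop.1 (helper86.primesIn_ge hδ0 hδ1)
  have hlim : Filter.Tendsto (fun n : ℕ => (n : ℝ) ^ δ) Filter.atTop Filter.atTop :=
    (tendsto_rpow_atTop hδ0).comp tendsto_natCast_atTop_atTop
  obtain ⟨N2, hN2⟩ := Filter.eventually_atTop.1 (hlim.eventually_ge_atTop ((10 : ℝ) ^ 6))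
  refine ⟨max N2 ((2 * N1 + 2) * (2 * N1 + 2)), ?_⟩
  intro X a e hX hXa hXA he
  have hX2 : N2 ≤ X := le_trans (le_max_left _ _) hX
  have hX3 : (2 * N1 + 2) * (2 * N1 + 2) ≤ X := le_trans (le_max_right _ _) hX
  have hsq : 2 * N1 + 2 ≤ Nat.sqrt X := Nat.le_sqrt.2 hX3
  obtain ⟨y, hy⟩ : ∃ y, y = Nat.sqrt X / 2 := ⟨_, rfl⟩
  have hyN : N1 ≤ y := by omega
  have hy1 : 1 ≤ y := by omega
  have hX1 : 1 ≤ X := by
    have : 1 ≤ Nat.sqrt X := by omega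
    by_contra h
    have : X = 0 := by omega
    rw [this] at hsq
    simp at hsq
  have hX1R : (1 : ℝ) ≤ X := by exact_mod_cast hX1
  have hX0R : (0 : ℝ) < X := by linarith
  have hy1R : (1 : ℝ) ≤ y := by exact_mod_cast hy1
  have hy0R : (0 : ℝ) < y := by linarith
  have hyX : y * y ≤ X := by
    have h1 : y ≤ Nat.sqrt X := by omega
    exact le_trans (Nat.mul_le_mul h1 h1) (Nat.sqrt_le X)
  have hyXR : (y : ℝ) * y ≤ X := by exact_mod_cast hyX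
  have hu8 : ((X : ℝ) ^ δ) ^ 8 = (X : ℝ) ^ ε' := by
    rw [← Real.rpow_natCast, ← Real.rpow_mul hX0R.le]
    congr 1
    rw [hδ]; push_cast; ring
  have hmain := LOW_core hTOT X a e y ((X : ℝ) ^ δ) ((y : ℝ) ^ δ) hy hXA he
    (Real.one_le_rpow hy1R hδ0.le)
    (by
      rw [pow_two, ← Real.mul_rpow hy0R.le hy0R.le]
      exact Real.rpow_le_rpow (by positivity) hyXR hδ0.le)
    (hN2 X hX2)
    (by
      rw [hu8]
      refine le_trans ?_ hXa
      exact Real.rpow_le_rpow_of_exponent_le hX1R hεle)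
    (by
      refine le_trans (le_of_eq ?_) (hN1 y hyN)
      rw [Real.rpow_sub hy0R, Real.rpow_one])
  rw [hu8] at hmain
  refine le_trans ?_ hmain
  have h1 : (X : ℝ) / (X : ℝ) ^ ε' = (X : ℝ) ^ (1 - ε') := by
    rw [Real.rpow_sub hX0R, Real.rpow_one]
  rw [h1]
  exact Real.rpow_le_rpow_of_exponent_le hX1R (by linarith)

end Pool.Agent.EP
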